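import Mathlib
import Pool.Agent.H529.D.GDefs

/-!
# Task DG of helper529's project `DHL[44,2]` (helper71): the criterion with levels of goodness
-/

set_option autoImplicit false

open Finset Filter

namespace Pool.Agent.H71.DH

open Pool.Agent.H95R2.BG Pool.Agent.Y826.Z Pool.Agent.H529.C Pool.Agent.H529.D
open Pool.Agent.H95R2.BG.Cert (pk cf pkS nrm G1 G2)

/-- the class: the least `k ≤ nl` such that `P b` for all `k ≤ b < nl` -/
theorem exists_cls (nl : ℕ) (P : ℕ → Prop) :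
    ∃ k, k ≤ nl ∧ (∀ b, k ≤ b → b < nl → P b) ∧ (k = 0 ∨ ∃ i, k = i + 1 ∧ ¬ P i) := by
  classical
  have hex : ∃ k, k ≤ nl ∧ ∀ b, k ≤ b → b < nl → P b :=
    ⟨nl, le_rfl, fun b h1 h2 => absurd h2 (not_lt.2 h1)⟩
  refine ⟨Nat.find hex, (Nat.find_spec hex).1, (Nat.find_spec hex).2, ?_⟩
  rcases Nat.eq_zero_or_pos (Nat.find hex) with h | h
  · exact Or.inl h
  · right
    obtain ⟨i, hi⟩ := Nat.exists_eq_succ_of_ne_zero h.ne'
    refine ⟨i, hi, ?_⟩
    intro hP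
    have hmin := Nat.find_min hex (m := i) (by omega)
    apply hmin
    refine ⟨by have := (Nat.find_spec hex).1; omega, ?_⟩
    intro b hb1 hb2
    rcases Nat.eq_or_lt_of_le hb1 with h1 | h1
    · exact h1 ▸ hP
    · exact (Nat.find_spec hex).2 b (by omega) hb2

/-- failure of a threshold gives an event -/
theorem evt_of {K N1 : ℕ} (hN : 0 < N1) {c : Fin K → ℕ} {x f : ℝ} {X nf : ℕ} (h1 : (X : ℝ) ≤ x * N1)
    (h3 : f * N1 ≤ nf + 1) (h : ¬ f ≤ Sm N1 x c) : Evt X nf c := by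
  rw [not_le] at h
  have hN' : (0 : ℝ) < N1 := by exact_mod_cast hN
  have e1 : ((∑ j, if c j < X then c j + 1 else 0 : ℕ) : ℝ) ≤ Sm N1 x c * N1 := by
    unfold Sm
    rw [sum_mul]
    push_cast
    refine sum_le_sum fun j _ => ?_
    by_cases hj : c j < X
    · have h4 : ((c j : ℝ) + 1) / N1 ≤ x := by
        rw [div_le_iff₀ hN']
        have : (c j : ℝ) + 1 ≤ X := by exact_mod_cast hj
        linarith
      rw [if_pos h4, if_pos hj, div_mul_cancel₀ _ hN'.ne']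
    · rw [if_neg hj]
      refine mul_nonneg ?_ hN'.le
      split_ifs
      · positivity
      · exact le_rfl
  have e2 : Sm N1 x c * N1 < nf + 1 := by
    have := mul_lt_mul_of_pos_right h hN'
    linarith
  have e3 : ((∑ j, if c j < X then c j + 1 else 0 : ℕ) : ℝ) < ((nf + 1 : ℕ) : ℝ) := by
    rw [Nat.cast_add, Nat.cast_one]
    linarith
  have e4 : (∑ j, if c j < X then c j + 1 else 0) < nf + 1 := Nat.cast_lt.1 e3
  unfold Evt
  omega

theorem rad_eq {K : ℕ} (c : Fin K → ℕ) : rad c = ∑ j, c j + K := by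
  unfold rad
  rw [sum_add_distrib]
  simp

open Classical in
/-- the cells -/
noncomputable def AG (K NN cap : ℕ) : Finset (Fin K → ℕ) :=
  (Box K NN).filter (fun c => ∑ j, c j < NN ∧ ∀ j, c j < cap)

theorem mem_AG {K NN cap : ℕ} (c : Fin K → ℕ) :
    c ∈ AG K NN cap ↔ c ∈ Box K NN ∧ ∑ j, c j < NN ∧ ∀ j, c j < cap := by
  unfold AG
  rw [mem_filter]

theorem AG_sub (K NN cap : ℕ) : AG K NN cap ⊆ Box K NN := fun c hc => ((mem_AG c).1 hc).1

/-- the sum over the cells with a weight which depends on the radius only -/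
theorem sum_AG (hB : S_BOX) {K NN cap : ℕ} {g ph h0 h1 : ℕ → ℕ} (hK : 2 ≤ K) (hg : ∀ c, cap ≤ c → g c = 0)
    (w : ℕ → ℝ) (i : Fin (K + 1)) :
    ∑ c ∈ AG K NN cap, w (∑ j, c j) * UU NN (FF NN g ph h0 h1) i c ^ 2 =
      ∑ n ∈ range NN, w n * XQ NN g ph h0 h1 K (fun i => g i * g i) n := by
  classical
  obtain ⟨-, -, -, h4, h5⟩ := hB K NN g ph h0 h1 hK
  rw [← h5 (fun i => g i * g i) w]
  rw [← sum_subset (AG_sub K NN cap)]
  · refine sum_congr rfl fun c hc => ?_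
    have hc1 : ∑ j, c j < NN := ((mem_AG c).1 hc).2.1
    rw [if_pos hc1, h4 i c hc1, mul_pow, ← prod_pow]
    congr 2
    refine prod_congr rfl fun j _ => ?_
    rw [Nat.cast_mul, sq]
  · intro c hc hcn
    by_cases h1 : ∑ j, c j < NN
    · rw [if_pos h1]
      have h2 : ∃ j, cap ≤ c j := by
        by_contra hno
        push Not at hno
        exact hcn ((mem_AG c).2 ⟨hc, h1, hno⟩)
      obtain ⟨j, hj⟩ := h2
      have h3 : ∏ j, (((g (c j) * g (c j) : ℕ)) : ℝ) = 0 := by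
        apply prod_eq_zero (mem_univ j)
        rw [hg _ hj]
        norm_num
      rw [h3]
      ring
    · rw [if_neg h1]

/-- the contribution of an event -/
theorem event_bound (hB : S_BOX) {K NN cap : ℕ} {g ph h0 h1 : ℕ → ℕ} (hK : 2 ≤ K) (X nf : ℕ) (De : ℕ → ℝ)
    (q : ℕ → ℕ) (Λ : ℝ) (hDe : ∀ n, 0 ≤ De n) (hΛ : 0 ≤ Λ)
    (hE : ∀ c : Fin K → ℕ, Evt X nf c → (∏ j, (g (c j) : ℝ)) ^ 2 ≤ Λ * ∏ j, (q (c j) : ℝ))
    (i : Fin (K + 1)) (s : Finset (Fin K → ℕ)) (hs : s ⊆ AG K NN cap) (hs2 : ∀ c ∈ s, Evt X nf c) :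
    ∑ c ∈ s, De (∑ j, c j) * UU NN (FF NN g ph h0 h1) i c ^ 2 ≤
      Λ * ∑ n ∈ range NN, De n * XQ NN g ph h0 h1 K q n := by
  classical
  obtain ⟨-, -, -, h4, h5⟩ := hB K NN g ph h0 h1 hK
  rw [← h5 q De]
  have hterm : ∀ c ∈ Box K NN, 0 ≤ (if ∑ j, c j < NN then De (∑ j, c j) *
        ((∏ j, (q (c j) : ℝ)) * xi NN g ph h0 h1 c ^ 2) else 0) := by
    intro c _
    split_ifs
    · exact mul_nonneg (hDe _) (mul_nonneg (prod_nonneg fun j _ => Nat.cast_nonneg _) (sq_nonneg _))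
    · exact le_rfl
  calc ∑ c ∈ s, De (∑ j, c j) * UU NN (FF NN g ph h0 h1) i c ^ 2
      ≤ ∑ c ∈ s, Λ * (if ∑ j, c j < NN then De (∑ j, c j) *
          ((∏ j, (q (c j) : ℝ)) * xi NN g ph h0 h1 c ^ 2) else 0) := by
        refine sum_le_sum fun c hc => ?_
        have hc1 : ∑ j, c j < NN := ((mem_AG c).1 (hs hc)).2.1
        rw [if_pos hc1, h4 i c hc1, mul_pow]
        have e := mul_le_mul_of_nonneg_right (hE c (hs2 c hc)) (sq_nonneg (xi NN g ph h0 h1 c))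
        have e' := mul_le_mul_of_nonneg_left e (hDe (∑ j, c j))
        refine e'.trans (le_of_eq ?_)
        ring
    _ = Λ * ∑ c ∈ s, (if ∑ j, c j < NN then De (∑ j, c j) *
          ((∏ j, (q (c j) : ℝ)) * xi NN g ph h0 h1 c ^ 2) else 0) := by rw [mul_sum]
    _ ≤ Λ * ∑ c ∈ Box K NN, (if ∑ j, c j < NN then De (∑ j, c j) *
          ((∏ j, (q (c j) : ℝ)) * xi NN g ph h0 h1 c ^ 2) else 0) := by
        refine mul_le_mul_of_nonneg_left ?_ hΛ
        exact sum_le_sum_of_subset_of_nonneg (hs.trans (AG_sub K NN cap)) (fun c hc _ => hterm c hc)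

/-- the sum over one marginal, for a weight `WW` on the cells -/
theorem one_marginal (hB : S_BOX) {K NN cap : ℕ} {g ph h0 h1 : ℕ → ℕ} (hK : 2 ≤ K)
    (hg : ∀ c, cap ≤ c → g c = 0) (W0 : ℕ → ℝ) (WW : (Fin K → ℕ) → ℝ)
    (ne : ℕ) (Xe nfe : Fin ne → ℕ) (De : Fin ne → ℕ → ℝ) (qe : Fin ne → ℕ → ℕ) (Λ : Fin ne → ℝ)
    (hDe : ∀ e n, 0 ≤ De e n) (hΛ : ∀ e, 0 ≤ Λ e)
    (hE : ∀ e, ∀ c : Fin K → ℕ, Evt (Xe e) (nfe e) c → (∏ j, (g (c j) : ℝ)) ^ 2 ≤ Λ e * ∏ j, (qe e (c j) : ℝ))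
    (hcov : ∀ c ∈ AG K NN cap, ∃ S : Finset (Fin ne), (∀ e ∈ S, Evt (Xe e) (nfe e) c) ∧
      W0 (∑ j, c j) - WW c ≤ ∑ e ∈ S, De e (∑ j, c j)) (i : Fin (K + 1)) :
    ∑ n ∈ range NN, W0 n * XQ NN g ph h0 h1 K (fun i => g i * g i) n -
        ∑ e, Λ e * ∑ n ∈ range NN, De e n * XQ NN g ph h0 h1 K (qe e) n ≤
      ∑ c ∈ AG K NN cap, WW c * UU NN (FF NN g ph h0 h1) i c ^ 2 := by
  classical
  rw [← sum_AG hB hK hg W0 i]
  have k1 : ∀ e, ∑ c ∈ (AG K NN cap).filter (fun c => Evt (Xe e) (nfe e) c),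
      De e (∑ j, c j) * UU NN (FF NN g ph h0 h1) i c ^ 2 ≤
      Λ e * ∑ n ∈ range NN, De e n * XQ NN g ph h0 h1 K (qe e) n := fun e =>
    event_bound hB hK (Xe e) (nfe e) (De e) (qe e) (Λ e) (hDe e) (hΛ e) (hE e) i _ (filter_subset _ _)
      (fun c hc => (mem_filter.1 hc).2)
  have k2 : ∑ c ∈ AG K NN cap, (W0 (∑ j, c j) - WW c) * UU NN (FF NN g ph h0 h1) i c ^ 2 ≤
      ∑ e, Λ e * ∑ n ∈ range NN, De e n * XQ NN g ph h0 h1 K (qe e) n := by
    refine le_trans ?_ (sum_le_sum fun e _ => k1 e)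
    simp only [sum_filter]
    rw [sum_comm]
    refine sum_le_sum fun c hc => ?_
    obtain ⟨S, hS1, hS2⟩ := hcov c hc
    have hU : 0 ≤ UU NN (FF NN g ph h0 h1) i c ^ 2 := sq_nonneg _
    calc (W0 (∑ j, c j) - WW c) * UU NN (FF NN g ph h0 h1) i c ^ 2
        ≤ (∑ e ∈ S, De e (∑ j, c j)) * UU NN (FF NN g ph h0 h1) i c ^ 2 :=
          mul_le_mul_of_nonneg_right hS2 hU
      _ = ∑ e ∈ S, (if Evt (Xe e) (nfe e) c then De e (∑ j, c j) * UU NN (FF NN g ph h0 h1) i c ^ 2 else 0) := by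
          rw [sum_mul]
          exact sum_congr rfl fun e he => by rw [if_pos (hS1 e he)]
      _ ≤ ∑ e, (if Evt (Xe e) (nfe e) c then De e (∑ j, c j) * UU NN (FF NN g ph h0 h1) i c ^ 2 else 0) := by
          refine sum_le_sum_of_subset_of_nonneg (subset_univ _) fun e _ _ => ?_
          split_ifs
          · exact mul_nonneg (hDe _ _) hU
          · exact le_rfl
  have k3 : ∑ c ∈ AG K NN cap, (W0 (∑ j, c j) - WW c) * UU NN (FF NN g ph h0 h1) i c ^ 2 =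
      ∑ c ∈ AG K NN cap, W0 (∑ j, c j) * UU NN (FF NN g ph h0 h1) i c ^ 2 -
      ∑ c ∈ AG K NN cap, WW c * UU NN (FF NN g ph h0 h1) i c ^ 2 := by
    rw [← sum_sub_distrib]
    exact sum_congr rfl fun c _ => by ring
  rw [k3] at k2
  linarith

/-- the evaluation of the pairs of cells, from the classes -/
theorem ev_of {K N1 L nl : ℕ} {τ Bp : ℕ → ℝ} {x G : ℕ → ℕ → ℝ} {m : ℕ → ℕ}
    (hcomb : ∀ i, i < nl → ∀ c c' : Fin K → ℕ, GdG (Bp i) (x i) (G i) (m i) N1 c → GdG (Bp i) (x i) (G i) (m i) N1 c' →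
      ((rad c + rad c' : ℕ) : ℝ) / N1 ≤ 2 + τ i → Ev N1 c c')
    (hN : 0 < N1) {pen : ℕ → ℕ} (hp2 : ∀ i, i < nl → (2 * L : ℝ) - pen i ≤ (2 + τ i) * N1)
    (hp3 : 2 * L ≤ 2 * N1 + pen nl) (cls : (Fin K → ℕ) → ℕ) (hc1 : ∀ c, cls c ≤ nl)
    (hc2 : ∀ c b, cls c ≤ b → b < nl → GdG (Bp b) (x b) (G b) (m b) N1 c)
    (c c' : Fin K → ℕ) (h : (rad c + pen (cls c)) + (rad c' + pen (cls c')) ≤ 2 * L) : Ev N1 c c' := by
  have hN' : (0 : ℝ) < N1 := by exact_mod_cast hN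
  have key : ∀ b, cls c ≤ b → cls c' ≤ b → (b = cls c ∨ b = cls c') → Ev N1 c c' := by
    intro b h1 h2 h3
    have hb : b ≤ nl := by
      rcases h3 with h3 | h3
      · rw [h3]; exact hc1 c
      · rw [h3]; exact hc1 c'
    have hr : rad c + rad c' + pen b ≤ 2 * L := by
      rcases h3 with h3 | h3
      · rw [h3]; omega
      · rw [h3]; omega
    rcases Nat.eq_or_lt_of_le hb with h4 | h4
    · left
      rw [h4] at hr
      omega
    · refine hcomb b h4 c c' (hc2 c b h1 h4) (hc2 c' b h2 h4) ?_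
      rw [div_le_iff₀ hN']
      have h5 : ((rad c + rad c' : ℕ) : ℝ) + pen b ≤ 2 * L := by exact_mod_cast hr
      have h6 := hp2 b h4
      linarith
  rcases le_total (cls c) (cls c') with h1 | h1
  · exact key (cls c') h1 le_rfl (Or.inr rfl)
  · exact key (cls c) le_rfl h1 (Or.inl rfl)

theorem pen_mono {nl : ℕ} {pen : ℕ → ℕ} (h : ∀ i, i < nl → pen i ≤ pen (i + 1)) (k : ℕ) (hk : k ≤ nl) :
    pen k ≤ pen nl := by
  induction nl, hk using Nat.le_induction with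
  | base => exact le_rfl
  | succ n hn ih => exact (ih fun i hi => h i (by omega)).trans (h n (by omega))

/-- **Task DG** -/
theorem gen_crit : S_GEN := by
  intro hB hL hcomb K NN N1 L Dm cap g ph h0 h1 hK hN1 hM hNK hDm hL2 hg hcap nl τ s w V0 Bp x G l k a m
    hpar hrd pen hp1 hp2 hp3 hp4 r μ T hμ W hW1 hW2 hW3 ne Xe nfe De qe Λ hDe hΛ hcov hE hfin
  have hN1' : (0 : ℝ) < N1 := by exact_mod_cast hN1
  choose cls hc1 hc2 hc3 using fun c : Fin K → ℕ =>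
    exists_cls nl (fun b => GdG (Bp b) (x b) (G b) (m b) N1 c)
  obtain ⟨hb1, hb2, hb3, hb4, hb5⟩ := hB K NN g ph h0 h1 hK
  have hrad : ∀ c ∈ AG K NN cap, rad c ≤ NN + K - 1 := by
    intro c hc
    have := ((mem_AG c).1 hc).2.1
    rw [rad_eq]
    omega
  have hsum : ∀ c : Fin K → ℕ, ∀ c' : Fin K → ℕ, c = c' → rad c = rad c' := fun c c' h => by rw [h]
  refine @hL K N1 NN (NN + K - 1) L Dm hN1 hM (by omega) hDm hL2 (FF NN g ph h0 h1)
    (fun c hc => by have := hb1 c hc; omega) (AG K NN cap) (AG_sub K NN cap) ?_ hrad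
    (fun c => rad c + pen (cls c)) ?_ ?_ r μ hμ T (fun c => W (cls c) (∑ j, c j)) ?_ ?_ ?_ ?_
  · intro i c hc hU
    obtain ⟨h2, h3⟩ := hb3 i c hU
    refine (mem_AG c).2 ⟨hc, h2, fun j => ?_⟩
    by_contra hj
    exact h3 j (hg _ (not_lt.1 hj))
  · intro c hc
    have h2 := hrad c hc
    have h3 := pen_mono hp1 (cls c) (hc1 c)
    show rad c + pen (cls c) ≤ L + Dm
    omega
  · intro c _ c' _ h
    exact ev_of (fun i hi => hcomb (hpar i hi) K N1 hN1) hN1 hp2 hp3 cls hc1 hc2 c c' h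
  · intro c hc h
    have h2 := ((mem_AG c).1 hc).2.1
    have h' : rad c + pen (cls c) + Dm ≤ L := h
    rw [rad_eq] at h'
    exact hW1 (cls c) (hc1 c) _ h2 h'
  · intro c hc h h'
    have h2 := ((mem_AG c).1 hc).2.1
    have h3 : L < rad c + pen (cls c) + Dm := h
    have h4 : rad c + pen (cls c) ≤ L := h'
    have h5 := hW2 (cls c) (hc1 c) (∑ j, c j) h2
    rw [← rad_eq] at h5
    exact h5 h3 h4
  · intro c hc h
    have h2 := ((mem_AG c).1 hc).2.1
    have h3 : L < rad c + pen (cls c) := h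
    have h5 := hW3 (cls c) (hc1 c) (∑ j, c j) h2
    rw [← rad_eq] at h5
    exact h5 h3
  · have hm : ∀ i : Fin (K + 1), ∑ n ∈ range NN, W 0 n * XQ NN g ph h0 h1 K (fun i => g i * g i) n -
        ∑ e, Λ e * ∑ n ∈ range NN, De e n * XQ NN g ph h0 h1 K (qe e) n ≤
        ∑ c ∈ AG K NN cap, W (cls c) (∑ j, c j) * UU NN (FF NN g ph h0 h1) i c ^ 2 := by
      intro i
      refine one_marginal hB hK hg (W 0) (fun c => W (cls c) (∑ j, c j)) ne Xe nfe De qe Λ hDe hΛ hE ?_ i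
      intro c hc
      obtain ⟨-, hcs, hcc⟩ := (mem_AG c).1 hc
      rcases hc3 c with h | ⟨i', h, hnot⟩
      · refine ⟨∅, fun e he => absurd he (notMem_empty e), ?_⟩
        rw [h, sub_self, sum_empty]
      · have hi' : i' < nl := by have := hc1 c; omega
        have hex : ∃ j, j ≤ m i' ∧ ¬ G i' j / 2 ≤ Sm N1 (x i' j) c := by
          by_contra hno
          push Not at hno
          apply hnot
          refine ⟨?_, ?_, hno⟩
          · intro j
            have h2 : c j + 1 ≤ cap := hcc j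
            have h3 : (c j : ℝ) + 1 ≤ cap := by exact_mod_cast h2
            rw [div_le_iff₀ hN1']
            linarith
          · refine le_trans ?_ (hrd i' hi')
            have h2 : rad c ≤ NN + K := by have := hrad c hc; omega
            have h3 : (rad c : ℝ) ≤ ((NN + K : ℕ) : ℝ) := by exact_mod_cast h2
            exact div_le_div_of_nonneg_right h3 hN1'.le
        obtain ⟨j, hj, hj2⟩ := hex
        obtain ⟨S, hS1, hS2⟩ := hcov i' hi' j hj
        refine ⟨S, fun e he => evt_of hN1 (hS1 e he).1 (hS1 e he).2 hj2, ?_⟩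
        rw [h]
        exact hS2 _ hcs
    have hsumm := sum_le_sum (s := univ) fun i (_ : i ∈ univ) => hm i
    rw [sum_const, card_univ, Fintype.card_fin, nsmul_eq_mul] at hsumm
    rw [hb2]
    refine lt_of_lt_of_le hfin ?_
    push_cast at hsumm
    exact hsumm

end Pool.Agent.H71.DH
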